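import Mathlib

-- part Pool.Agent.P.MP_2e654e_an.Heat
section

set_option autoImplicit false

open Complex Metric Filter Topology

namespace Pool.Agent.P.MP_2e654e_an

/-- The k-th term of the backward heat series. -/
noncomputable def hterm (lam : ℝ) (F : ℂ → ℂ) (z : ℂ) (k : ℕ) : ℂ :=
  (-(lam : ℂ)) ^ k / ((Nat.factorial k : ℕ) : ℂ) * iteratedDeriv (2 * k) F z

/-- The backward heat operator. -/
noncomputable def heat (lam : ℝ) (F : ℂ → ℂ) (z : ℂ) : ℂ := ∑' k : ℕ, hterm lam F z k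

lemma fact_two_mul_le (k : ℕ) : (2 * k).factorial ≤ k.factorial * (2 * (k + 1)) ^ k := by
  have h1 : (2 * k - k).factorial * (2 * k).descFactorial k = (2 * k).factorial :=
    Nat.factorial_mul_descFactorial (by omega)
  have h2 : (2 * k).descFactorial k ≤ (2 * k) ^ k := Nat.descFactorial_le_pow _ _
  have h3 : (2 * k) ^ k ≤ (2 * (k + 1)) ^ k := Nat.pow_le_pow_left (by omega) _
  rw [show 2 * k - k = k by omega] at h1
  rw [← h1]
  exact Nat.mul_le_mul_left _ (h2.trans h3)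

lemma hterm_bound {F : ℂ → ℂ} (hF : Differentiable ℂ F) {z : ℂ} {K : ℝ}
    (hK : ∀ w : ℂ, ‖F (z + w)‖ ≤ K * Real.exp (‖w‖ ^ 2)) (k : ℕ) :
    ‖hterm (1 / 12) F z k‖ ≤ 3 * K * (1 / 2) ^ k := by
  have hK0 : 0 ≤ K := by
    have := hK 0
    have h2 : 0 ≤ K * Real.exp (‖(0 : ℂ)‖ ^ 2) := (norm_nonneg _).trans this
    simpa using h2
  set R : ℝ := Real.sqrt (k + 1) with hR
  have hk1 : (0 : ℝ) < k + 1 := by positivity
  have hRpos : 0 < R := Real.sqrt_pos.mpr hk1
  have hR2 : R ^ 2 = k + 1 := Real.sq_sqrt hk1.le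
  have hC : ∀ u ∈ sphere z R, ‖F u‖ ≤ K * Real.exp (k + 1) := by
    intro u hu
    have h1 := hK (u - z)
    rw [add_sub_cancel] at h1
    rw [mem_sphere_iff_norm] at hu
    rwa [hu, hR2] at h1
  have hest := Complex.norm_iteratedDeriv_le_of_forall_mem_sphere_norm_le (2 * k) hRpos
    hF.diffContOnCl hC
  rw [pow_mul, hR2] at hest
  have hfac : (((2 * k).factorial : ℕ) : ℝ) ≤ (k.factorial : ℝ) * (2 * (k + 1)) ^ k := by
    exact_mod_cast fact_two_mul_le k
  have hfpos : (0 : ℝ) < k.factorial := by exact_mod_cast k.factorial_pos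
  have he : Real.exp 1 ≤ 3 := by
    have := Real.exp_one_lt_d9
    linarith
  have hexp : Real.exp (k + 1) ≤ 3 ^ k * 3 := by
    rw [Real.exp_add, ← Real.exp_one_pow]
    gcongr
  unfold hterm
  rw [norm_mul, norm_div, norm_pow, norm_neg, Complex.norm_natCast, Complex.norm_real]
  have h12 : ‖(1 / 12 : ℝ)‖ = 1 / 12 := by norm_num
  rw [h12]
  calc (1 / 12 : ℝ) ^ k / (k.factorial : ℝ) * ‖iteratedDeriv (2 * k) F z‖
      ≤ (1 / 12 : ℝ) ^ k / (k.factorial : ℝ) *
        (((2 * k).factorial : ℝ) * (K * Real.exp (k + 1)) / (k + 1) ^ k) := by gcongr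
    _ ≤ (1 / 12 : ℝ) ^ k / (k.factorial : ℝ) *
        (((k.factorial : ℝ) * (2 * (k + 1)) ^ k) * (K * (3 ^ k * 3)) / (k + 1) ^ k) := by gcongr
    _ = 3 * K * ((1 / 12 : ℝ) ^ k * 2 ^ k * 3 ^ k) := by
        rw [mul_pow]
        field_simp
    _ = 3 * K * (1 / 2) ^ k := by
        rw [← mul_pow, ← mul_pow]
        norm_num

lemma summable_geo (K : ℝ) : Summable (fun k : ℕ => 3 * K * (1 / 2 : ℝ) ^ k) :=
  summable_geometric_two.mul_left _

lemma hterm_summable {F : ℂ → ℂ} (hF : Differentiable ℂ F) {z : ℂ} {K : ℝ}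
    (hK : ∀ w : ℂ, ‖F (z + w)‖ ≤ K * Real.exp (‖w‖ ^ 2)) :
    Summable (hterm (1 / 12) F z) :=
  (summable_geo K).of_norm_bounded (hterm_bound hF hK)

lemma heat_bound {F : ℂ → ℂ} (hF : Differentiable ℂ F) {z : ℂ} {K : ℝ}
    (hK : ∀ w : ℂ, ‖F (z + w)‖ ≤ K * Real.exp (‖w‖ ^ 2)) :
    ‖heat (1 / 12) F z‖ ≤ 6 * K := by
  have h := tsum_of_norm_bounded (summable_geo K).hasSum (hterm_bound hF hK)
  rw [tsum_mul_left, tsum_geometric_two] at h
  unfold heat
  linarith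

lemma shift_bound {F : ℂ → ℂ} {K ρ : ℝ} (hK : ∀ w : ℂ, ‖F w‖ ≤ K * Real.exp (‖w‖ ^ 2 / 2))
    {z : ℂ} (hz : ‖z‖ ≤ ρ) (w : ℂ) :
    ‖F (z + w)‖ ≤ (K * Real.exp (ρ ^ 2)) * Real.exp (‖w‖ ^ 2) := by
  have hK0 : 0 ≤ K := by
    have := hK 0
    have h2 : 0 ≤ K * Real.exp (‖(0 : ℂ)‖ ^ 2 / 2) := (norm_nonneg _).trans this
    simpa using h2
  refine (hK _).trans ?_
  rw [mul_assoc, ← Real.exp_add]
  gcongr
  have h1 : ‖z + w‖ ≤ ρ + ‖w‖ := (norm_add_le _ _).trans (by linarith)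
  have h2 : ‖z + w‖ ^ 2 ≤ (ρ + ‖w‖) ^ 2 := by gcongr
  nlinarith [sq_nonneg (ρ - ‖w‖)]

lemma iteratedDeriv_differentiable {F : ℂ → ℂ} (hF : Differentiable ℂ F) (n : ℕ) :
    Differentiable ℂ (iteratedDeriv n F) := by
  have : ContDiff ℂ ⊤ F := hF.contDiff
  exact this.differentiable_iteratedDeriv n (by exact_mod_cast WithTop.coe_lt_top _)

lemma heat_differentiable {F : ℂ → ℂ} (hF : Differentiable ℂ F) {K : ℝ}
    (hK : ∀ w : ℂ, ‖F w‖ ≤ K * Real.exp (‖w‖ ^ 2 / 2)) :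
    Differentiable ℂ (heat (1 / 12) F) := by
  intro z
  have hd : DifferentiableOn ℂ (fun w : ℂ => ∑' k : ℕ, hterm (1 / 12) F w k)
      (ball 0 (‖z‖ + 1)) := by
    refine Complex.differentiableOn_tsum_of_summable_norm
      (summable_geo (K * Real.exp ((‖z‖ + 1) ^ 2))) (fun k => ?_) isOpen_ball (fun k w hw => ?_)
    · unfold hterm
      exact ((iteratedDeriv_differentiable hF _).const_mul _).differentiableOn
    · refine hterm_bound hF (shift_bound hK ?_) k
      simpa using (mem_ball_zero_iff.mp hw).le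
  exact hd.differentiableAt (isOpen_ball.mem_nhds (by simp))

lemma heat_shift (lam : ℝ) (F : ℂ → ℂ) (x w : ℂ) :
    heat lam F (x + w) = heat lam (fun u => F (x + u)) w := by
  unfold heat hterm
  simp only [iteratedDeriv_comp_const_add]

lemma heat_const_mul (lam : ℝ) (F : ℂ → ℂ) (c w : ℂ) :
    heat lam (fun u => c * F u) w = c * heat lam F w := by
  unfold heat hterm
  rw [← tsum_mul_left]
  congr 1
  ext k
  rw [iteratedDeriv_const_mul_field]
  ring

lemma heat_add (lam : ℝ) {F G : ℂ → ℂ} (hF : Differentiable ℂ F) (hG : Differentiable ℂ G) {w : ℂ}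
    (h1 : Summable (hterm lam F w)) (h2 : Summable (hterm lam G w)) :
    heat lam (fun u => F u + G u) w = heat lam F w + heat lam G w := by
  unfold heat
  rw [← h1.tsum_add h2]
  congr 1
  ext k
  unfold hterm
  rw [iteratedDeriv_fun_add hF.contDiff.contDiffAt hG.contDiff.contDiffAt]
  ring

lemma hasSum_cos_add (lam : ℝ) (c w : ℂ) :
    HasSum (hterm lam (fun u => c + cos u) w) (c + exp lam * cos w) := by
  have h1 : HasSum (fun k : ℕ => (lam : ℂ) ^ k / (k.factorial : ℂ)) (exp lam) := by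
    rw [Complex.exp_eq_exp_ℂ]
    exact NormedSpace.expSeries_div_hasSum_exp (lam : ℂ)
  have h2 := h1.mul_right (cos w)
  have h3 : HasSum (fun k : ℕ => if k = 0 then c else 0) c := hasSum_ite_eq 0 c
  refine (h3.add h2).congr_fun ?_
  intro k
  unfold hterm
  rcases Nat.eq_zero_or_pos k with rfl | hk
  · simp
  · rw [iteratedDeriv_const_add (by omega), if_neg hk.ne']
    have : iteratedDeriv (2 * k) (fun z => cos z) w = (-1) ^ k * cos w := by
      simp
    rw [this, neg_pow (lam : ℂ)]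
    have h4 : ((-1 : ℂ) ^ k) * (-1) ^ k = 1 := by rw [← mul_pow]; simp
    linear_combination ((lam : ℂ) ^ k / (k.factorial : ℂ) * cos w) * h4

/-- A zero forced by the minimum modulus principle. -/
lemma exists_zero {ψ : ℂ → ℂ} (hψ : Differentiable ℂ ψ) {c : ℂ} {r δ : ℝ} (hr : 0 < r)
    (h1 : ‖ψ c‖ < δ) (h2 : ∀ w ∈ sphere c r, δ ≤ ‖ψ w‖) : ∃ w ∈ closedBall c r, ψ w = 0 := by
  by_contra hcon
  push Not at hcon
  have hd : DifferentiableOn ℂ (fun w => (ψ w)⁻¹) (closedBall c r) :=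
    hψ.differentiableOn.inv hcon
  have hdc : DiffContOnCl ℂ (fun w => (ψ w)⁻¹) (ball c r) := by
    apply DifferentiableOn.diffContOnCl
    rwa [closure_ball c hr.ne']
  have hδ : 0 < δ := (norm_nonneg _).trans_lt h1
  have hb : ∀ w ∈ frontier (ball c r), ‖(ψ w)⁻¹‖ ≤ δ⁻¹ := by
    intro w hw
    rw [frontier_ball c hr.ne'] at hw
    rw [norm_inv]
    exact inv_anti₀ hδ (h2 w hw)
  have hc := Complex.norm_le_of_forall_mem_frontier_norm_le isBounded_ball hdc hb
    (subset_closure (mem_ball_self hr))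
  have hpos : 0 < ‖ψ c‖ := norm_pos_iff.mpr (hcon c (mem_closedBall_self hr.le))
  rw [norm_inv] at hc
  have := (inv_le_inv₀ hpos hδ).mp hc
  linarith

end Pool.Agent.P.MP_2e654e_an
end

-- part Pool.Agent.P.MP_2e654e_an.Prod
section

set_option autoImplicit false

open Complex Metric Filter Topology

namespace Pool.Agent.P.MP_2e654e_an

variable {ι : Type} {a : ι → ℝ}

/-- The even canonical product with zeros at plus and minus `a i`. -/
noncomputable def cprod (a : ι → ℝ) (z : ℂ) : ℂ := ∏' i, (1 + -(z ^ 2 / (a i : ℂ) ^ 2))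

lemma norm_fac (ha : ∀ i, 0 < a i) (z : ℂ) (i : ι) :
    ‖-(z ^ 2 / (a i : ℂ) ^ 2)‖ = ‖z‖ ^ 2 * (1 / a i ^ 2) := by
  rw [norm_neg, norm_div, norm_pow, norm_pow, Complex.norm_real, Real.norm_of_nonneg (ha i).le]
  ring

lemma summable_fac (ha : ∀ i, 0 < a i) (hs : Summable fun i => 1 / a i ^ 2) (z : ℂ) :
    Summable fun i => ‖-(z ^ 2 / (a i : ℂ) ^ 2)‖ := by
  simp only [norm_fac ha]
  exact hs.mul_left _

lemma cprod_tendsto (ha : ∀ i, 0 < a i) (hs : Summable fun i => 1 / a i ^ 2) (z : ℂ) :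
    Tendsto (fun s : Finset ι => ∏ i ∈ s, (1 + -(z ^ 2 / (a i : ℂ) ^ 2))) atTop
      (𝓝 (cprod a z)) :=
  (multipliable_one_add_of_summable (summable_fac ha hs z)).hasProd

lemma cprod_differentiable (ha : ∀ i, 0 < a i) (hs : Summable fun i => 1 / a i ^ 2) :
    Differentiable ℂ (cprod a) := by
  intro z
  set ρ := ‖z‖ + 1 with hρ
  have h := Summable.hasProdLocallyUniformlyOn_one_add (K := ball (0 : ℂ) ρ)
    (f := fun i w => -(w ^ 2 / (a i : ℂ) ^ 2)) (u := fun i => ρ ^ 2 * (1 / a i ^ 2))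
    isOpen_ball (hs.mul_left _) (Eventually.of_forall fun i w hw => by
      rw [norm_fac ha]
      have := (mem_ball_zero_iff.mp hw).le
      gcongr) (fun i => by fun_prop)
  rw [hasProdLocallyUniformlyOn_iff_tendstoLocallyUniformlyOn] at h
  have hd := h.differentiableOn (Eventually.of_forall fun s => by
    apply Differentiable.differentiableOn
    fun_prop) isOpen_ball
  exact hd.differentiableAt (isOpen_ball.mem_nhds (by simp [hρ]))

lemma cprod_ne_zero (ha : ∀ i, 0 < a i) (hs : Summable fun i => 1 / a i ^ 2) {z : ℂ}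
    (hz : ∀ i, z ^ 2 ≠ (a i : ℂ) ^ 2) : cprod a z ≠ 0 := by
  refine tprod_one_add_ne_zero_of_summable (fun i h => hz i ?_) (summable_fac ha hs z)
  have hai : (a i : ℂ) ≠ 0 := by exact_mod_cast (ha i).ne'
  field_simp at h
  linear_combination -h

lemma cprod_zero_im (ha : ∀ i, 0 < a i) (hs : Summable fun i => 1 / a i ^ 2) {z : ℂ}
    (hz : cprod a z = 0) : z.im = 0 := by
  by_contra him
  refine cprod_ne_zero ha hs (fun i h => him ?_) hz
  rcases sq_eq_sq_iff_eq_or_eq_neg.mp h with h | h <;> simp [h]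

lemma cprod_real (ha : ∀ i, 0 < a i) (hs : Summable fun i => 1 / a i ^ 2) (x : ℝ) :
    (cprod a x).im = 0 := by
  have h := (Complex.continuous_im.tendsto _).comp (cprod_tendsto ha hs x)
  have h2 : (Complex.im ∘ fun s : Finset ι => ∏ i ∈ s, (1 + -((x : ℂ) ^ 2 / (a i : ℂ) ^ 2)))
      = fun _ => 0 := by
    ext s
    have : ∏ i ∈ s, (1 + -((x : ℂ) ^ 2 / (a i : ℂ) ^ 2))
        = ((∏ i ∈ s, (1 + -(x ^ 2 / a i ^ 2)) : ℝ) : ℂ) := by push_cast; rfl
    simp only [Function.comp, this, Complex.ofReal_im]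
  rw [h2] at h
  exact tendsto_nhds_unique h tendsto_const_nhds

lemma cprod_even (z : ℂ) : cprod a (-z) = cprod a z := by
  unfold cprod
  simp only [neg_sq]

lemma one_add_sq_le {t e : ℝ} (ht : 0 ≤ t) (he0 : 0 ≤ e) (he : e ≤ 1) :
    1 + t ^ 2 ≤ Real.exp (t ^ (1 + e)) := by
  rcases le_total t 1 with h | h
  · have h1 : t ^ 2 ≤ t ^ (1 + e) := by
      rw [← Real.rpow_natCast]
      exact Real.rpow_le_rpow_of_exponent_ge' ht h (by linarith) (by push_cast; linarith)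
    have := Real.add_one_le_exp (t ^ (1 + e))
    linarith
  · have h1 : t ≤ t ^ (1 + e) := by
      conv_lhs => rw [← Real.rpow_one t]
      exact Real.rpow_le_rpow_of_exponent_le h (by linarith)
    have h2 : ∑ i ∈ Finset.range 4, t ^ i / (i.factorial : ℝ) ≤ Real.exp t :=
      Real.sum_le_exp_of_nonneg ht 4
    simp only [Finset.sum_range_succ, Finset.sum_range_zero, Nat.factorial] at h2
    norm_num at h2
    have h3 : Real.exp t ≤ Real.exp (t ^ (1 + e)) := Real.exp_le_exp.mpr h1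
    nlinarith [mul_nonneg ht (sq_nonneg (t - 3 / 2))]

lemma cprod_norm_le (ha : ∀ i, 0 < a i) (hs : Summable fun i => 1 / a i ^ 2) {e : ℝ}
    (he0 : 0 ≤ e) (he : e ≤ 1) (hs' : Summable fun i => 1 / a i ^ (1 + e)) (z : ℂ) :
    ‖cprod a z‖ ≤ Real.exp ((∑' i, 1 / a i ^ (1 + e)) * ‖z‖ ^ (1 + e)) := by
  refine le_of_tendsto' (cprod_tendsto ha hs z).norm (fun s => ?_)
  have h1 : ∀ i, ‖1 + -(z ^ 2 / (a i : ℂ) ^ 2)‖ ≤
      Real.exp (1 / a i ^ (1 + e) * ‖z‖ ^ (1 + e)) := by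
    intro i
    have hai := ha i
    refine (norm_add_le _ _).trans ?_
    rw [norm_one, norm_fac ha]
    have h2 := one_add_sq_le (t := ‖z‖ / a i) (by positivity) he0 he
    rw [Real.div_rpow (norm_nonneg _) hai.le, div_pow] at h2
    rw [mul_one_div, one_div_mul_eq_div]
    exact h2
  calc ‖∏ i ∈ s, (1 + -(z ^ 2 / (a i : ℂ) ^ 2))‖
      = ∏ i ∈ s, ‖1 + -(z ^ 2 / (a i : ℂ) ^ 2)‖ := norm_prod _ _
    _ ≤ ∏ i ∈ s, Real.exp (1 / a i ^ (1 + e) * ‖z‖ ^ (1 + e)) :=
        Finset.prod_le_prod (fun i _ => norm_nonneg _) (fun i _ => h1 i)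
    _ = Real.exp ((∑ i ∈ s, 1 / a i ^ (1 + e)) * ‖z‖ ^ (1 + e)) := by
        rw [← Real.exp_sum, Finset.sum_mul]
    _ ≤ _ := by
        gcongr
        exact hs'.sum_le_tsum s (fun i _ => by have := ha i; positivity)

lemma cprod_lower (ha : ∀ i, 0 < a i) (hs : Summable fun i => 1 / a i ^ 2) {r : ℝ}
    (s : Finset ι) (hr : ∀ i ∈ s, a i ≤ r) : (2 : ℝ) ^ s.card ≤ ‖cprod a (I * r)‖ := by
  classical
  refine ge_of_tendsto (cprod_tendsto ha hs (I * r)).norm ?_
  filter_upwards [eventually_ge_atTop s] with t ht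
  have h1 : ∀ i, ‖1 + -((I * r) ^ 2 / (a i : ℂ) ^ 2)‖ = 1 + r ^ 2 / a i ^ 2 := by
    intro i
    have : 1 + -((I * r) ^ 2 / (a i : ℂ) ^ 2) = ((1 + r ^ 2 / a i ^ 2 : ℝ) : ℂ) := by
      rw [mul_pow, I_sq]
      push_cast
      ring
    rw [this, Complex.norm_real, Real.norm_of_nonneg (by positivity)]
  rw [norm_prod]
  simp only [h1]
  calc (2 : ℝ) ^ s.card = ∏ i ∈ s, (2 : ℝ) := by simp
    _ ≤ ∏ i ∈ s, (1 + r ^ 2 / a i ^ 2) := by
        refine Finset.prod_le_prod (fun _ _ => by norm_num) (fun i hi => ?_)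
        have h2 := ha i
        have h3 := hr i hi
        have : 1 ≤ r ^ 2 / a i ^ 2 := by
          rw [le_div_iff₀ (by positivity), one_mul]
          gcongr
        linarith
    _ ≤ ∏ i ∈ t, (1 + r ^ 2 / a i ^ 2) := by
        refine Finset.prod_le_prod_of_subset_of_one_le ht (fun i _ => by positivity)
          (fun i _ _ => ?_)
        have : 0 ≤ r ^ 2 / a i ^ 2 := by positivity
        linarith

lemma cprod_ratio (ha : ∀ i, 0 < a i) (hs : Summable fun i => 1 / a i ^ 2) {x η : ℝ}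
    (hx : 0 ≤ x) (hne : ∀ i, a i ^ 2 ≠ x ^ 2)
    (hη : ∀ s : Finset ι, ∑ i ∈ s, (2 * x + 1) / |a i ^ 2 - x ^ 2| ≤ η) (w : ℂ) :
    ‖cprod a (x + w) - cprod a x‖ ≤
      ‖cprod a x‖ * (Real.exp (η * (‖w‖ + ‖w‖ ^ 2)) - 1) := by
  have t1 := ((cprod_tendsto ha hs (x + w)).sub (cprod_tendsto ha hs x)).norm
  have t2 := (cprod_tendsto ha hs x).norm.mul_const (Real.exp (η * (‖w‖ + ‖w‖ ^ 2)) - 1)
  refine le_of_tendsto_of_tendsto' t1 t2 (fun s => ?_)
  set v : ι → ℂ := fun i => -((2 * x * w + w ^ 2) / ((a i : ℂ) ^ 2 - (x : ℂ) ^ 2)) with hv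
  have hfac : ∀ i, 1 + -((x + w) ^ 2 / (a i : ℂ) ^ 2) =
      (1 + -((x : ℂ) ^ 2 / (a i : ℂ) ^ 2)) * (1 + v i) := by
    intro i
    have hai : (a i : ℂ) ≠ 0 := by exact_mod_cast (ha i).ne'
    have h2 : (a i : ℂ) ^ 2 - (x : ℂ) ^ 2 ≠ 0 := by
      have := sub_ne_zero.mpr (hne i)
      exact_mod_cast this
    simp only [hv]
    field_simp
    ring
  have hvn : ∀ i, ‖v i‖ ≤ (2 * x + 1) / |a i ^ 2 - x ^ 2| * (‖w‖ + ‖w‖ ^ 2) := by
    intro i
    have h2 : ‖(a i : ℂ) ^ 2 - (x : ℂ) ^ 2‖ = |a i ^ 2 - x ^ 2| := by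
      rw [← Real.norm_eq_abs, ← Complex.norm_real]
      push_cast
      rfl
    simp only [hv]
    rw [norm_neg, norm_div, h2, div_mul_eq_mul_div]
    gcongr
    refine (norm_add_le _ _).trans ?_
    rw [norm_mul, norm_mul, norm_pow, Complex.norm_real, Real.norm_of_nonneg hx,
      Complex.norm_ofNat]
    have := norm_nonneg w
    nlinarith [mul_nonneg hx (sq_nonneg ‖w‖)]
  simp only [hfac]
  rw [Finset.prod_mul_distrib, ← mul_sub_one, norm_mul]
  gcongr
  refine (Finset.norm_prod_one_add_sub_one_le s v).trans ?_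
  gcongr
  calc ∑ i ∈ s, ‖v i‖ ≤ ∑ i ∈ s, (2 * x + 1) / |a i ^ 2 - x ^ 2| * (‖w‖ + ‖w‖ ^ 2) :=
        Finset.sum_le_sum fun i _ => hvn i
    _ = (∑ i ∈ s, (2 * x + 1) / |a i ^ 2 - x ^ 2|) * (‖w‖ + ‖w‖ ^ 2) := by
        rw [Finset.sum_mul]
    _ ≤ η * (‖w‖ + ‖w‖ ^ 2) := by
        gcongr
        exact hη s

end Pool.Agent.P.MP_2e654e_an
end

-- part Pool.Agent.P.MP_2e654e_an.Seq
section

set_option autoImplicit false

open Filter Topology

namespace Pool.Agent.P.MP_2e654e_an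

/-- multiplicity of the k-th cluster -/
def NN (k : ℕ) : ℕ := 2 ^ (2 * k ^ 2 + k)

/-- position of the k-th cluster -/
def RR (k : ℕ) : ℕ := 2 ^ (2 * k ^ 2)

/-- a point in the j-th gap -/
def MM (j : ℕ) : ℕ := 2 ^ (2 * j ^ 2 + 2 * j)

/-- index type of the zeros -/
abbrev Idx : Type := Σ k : ℕ, Fin (NN k)

/-- the zeros -/
noncomputable def aa (i : Idx) : ℝ := (RR i.1 : ℝ)

lemma RR_pos (k : ℕ) : (0 : ℝ) < RR k := by unfold RR; positivity

lemma aa_pos (i : Idx) : 0 < aa i := RR_pos _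

lemma summable_idx {g : ℕ → ℝ} (hg : ∀ k, 0 ≤ g k) (h : Summable fun k => (NN k : ℝ) * g k) :
    Summable fun i : Idx => g i.1 := by
  rw [summable_sigma_of_nonneg (fun i => hg _)]
  refine ⟨fun k => Summable.of_finite, ?_⟩
  simpa using h

lemma sum_idx_le {g : ℕ → ℝ} (hg : ∀ k, 0 ≤ g k) (h : Summable fun k => (NN k : ℝ) * g k)
    (s : Finset Idx) : ∑ i ∈ s, g i.1 ≤ ∑' k, (NN k : ℝ) * g k := by
  have h1 := summable_idx hg h
  refine (h1.sum_le_tsum s (fun i _ => hg _)).trans (le_of_eq ?_)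
  rw [h1.tsum_sigma]
  simp

lemma summable_aa {e : ℝ} (he : 0 < e) : Summable fun i : Idx => 1 / aa i ^ (1 + e) := by
  refine summable_idx (g := fun k => 1 / (RR k : ℝ) ^ (1 + e))
    (fun k => by have := RR_pos k; positivity) ?_
  refine Summable.of_norm_bounded_eventually_nat (g := fun k => (1 / 2 : ℝ) ^ k)
    summable_geometric_two ?_
  filter_upwards [tendsto_natCast_atTop_atTop.eventually_ge_atTop (1 / e : ℝ)] with k hk
  have hR := RR_pos k
  rw [Real.norm_of_nonneg (by positivity), mul_one_div, div_le_iff₀ (by positivity)]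
  unfold NN RR
  push_cast
  rw [← Real.rpow_natCast, ← Real.rpow_natCast (2 : ℝ) (2 * k ^ 2), ← Real.rpow_mul (by norm_num),
    one_div, inv_pow, ← Real.rpow_natCast, ← Real.rpow_neg (by norm_num),
    ← Real.rpow_add (by norm_num)]
  refine Real.rpow_le_rpow_of_exponent_le (by norm_num) ?_
  push_cast
  have h1 : 1 ≤ e * k := by
    rw [div_le_iff₀ he] at hk
    linarith
  have h2 : (0 : ℝ) ≤ k := Nat.cast_nonneg k
  nlinarith [mul_le_mul_of_nonneg_right h1 h2]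

lemma summable_aa_two : Summable fun i : Idx => 1 / aa i ^ 2 := by
  have := summable_aa (e := 1) one_pos
  refine this.congr (fun i => ?_)
  rw [show (1 : ℝ) + 1 = (2 : ℕ) by norm_num, Real.rpow_natCast]

lemma real_est {m R N b : ℝ} (hm : 1 ≤ m) (hR : 0 < R) (hN : 0 ≤ N) (hb : 0 < b)
    (h : (2 * R ≤ m ∧ N * b ≤ m) ∨ (2 * m ≤ R ∧ N * m * b ≤ R ^ 2)) :
    R ^ 2 ≠ m ^ 2 ∧ N * ((2 * m + 1) / |R ^ 2 - m ^ 2|) ≤ 4 / b := by
  rcases h with ⟨h1, h2⟩ | ⟨h1, h2⟩
  · have h3 : 3 / 4 * m ^ 2 ≤ m ^ 2 - R ^ 2 := by nlinarith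
    have h4 : 0 < m ^ 2 - R ^ 2 := by nlinarith
    refine ⟨by linarith, ?_⟩
    rw [abs_sub_comm, abs_of_pos h4, ← mul_div_assoc, div_le_div_iff₀ h4 hb]
    nlinarith [mul_le_mul_of_nonneg_right h2 (show 0 ≤ 2 * m + 1 by linarith)]
  · have h3 : 3 / 4 * R ^ 2 ≤ R ^ 2 - m ^ 2 := by nlinarith
    have h4 : 0 < R ^ 2 - m ^ 2 := by nlinarith
    refine ⟨by linarith, ?_⟩
    rw [abs_of_pos h4, ← mul_div_assoc, div_le_div_iff₀ h4 hb]
    have h5 : N * b ≤ N * m * b := by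
      have := mul_nonneg hN hb.le
      nlinarith
    nlinarith

lemma gap_est {j : ℕ} (hj : 1 ≤ j) (k : ℕ) :
    (RR k : ℝ) ^ 2 ≠ (MM j : ℝ) ^ 2 ∧
    (NN k : ℝ) * ((2 * MM j + 1) / |(RR k : ℝ) ^ 2 - (MM j : ℝ) ^ 2|) ≤ 4 / 2 ^ (max j k) := by
  refine real_est ?_ (RR_pos k) (Nat.cast_nonneg _) (by positivity) ?_
  · exact_mod_cast Nat.one_le_two_pow
  · rcases le_or_gt k j with h | h
    · left
      rw [max_eq_left h]
      have hsq : k ^ 2 ≤ j ^ 2 := Nat.pow_le_pow_left h 2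
      constructor
      · have : 2 * RR k ≤ MM j := by
          unfold RR MM
          rw [← pow_succ']
          exact Nat.pow_le_pow_right (by norm_num) (by omega)
        exact_mod_cast this
      · have : NN k * 2 ^ j ≤ MM j := by
          unfold NN MM
          rw [← pow_add]
          exact Nat.pow_le_pow_right (by norm_num) (by omega)
        exact_mod_cast this
    · right
      rw [max_eq_right h.le]
      obtain ⟨t, rfl⟩ := Nat.exists_eq_add_of_lt h
      constructor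
      · have : 2 * MM j ≤ RR (j + t + 1) := by
          unfold RR MM
          rw [← pow_succ']
          exact Nat.pow_le_pow_right (by norm_num) (by nlinarith [Nat.zero_le (j * t)])
        exact_mod_cast this
      · have : NN (j + t + 1) * MM j * 2 ^ (j + t + 1) ≤ RR (j + t + 1) ^ 2 := by
          unfold NN MM RR
          rw [← pow_add, ← pow_add, ← pow_mul]
          exact Nat.pow_le_pow_right (by norm_num) (by nlinarith [Nat.zero_le (j * t)])
        exact_mod_cast this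

lemma le_MM (j : ℕ) : j ≤ MM j := by
  unfold MM
  exact (Nat.lt_two_pow_self.le).trans (Nat.pow_le_pow_right (by norm_num) (by omega))

lemma le_RR (j : ℕ) : j ≤ RR j := by
  unfold RR
  exact (Nat.lt_two_pow_self.le).trans (Nat.pow_le_pow_right (by norm_num) (by nlinarith))

lemma exists_gap {η : ℝ} (hη : 0 < η) (M : ℕ) : ∃ m : ℕ, M ≤ m ∧
    (∀ i, aa i ^ 2 ≠ (m : ℝ) ^ 2) ∧
    ∀ s : Finset Idx, ∑ i ∈ s, (2 * (m : ℝ) + 1) / |aa i ^ 2 - (m : ℝ) ^ 2| ≤ η := by
  set t : ℕ → ℕ → ℝ := fun j k =>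
    (NN k : ℝ) * ((2 * MM j + 1) / |(RR k : ℝ) ^ 2 - (MM j : ℝ) ^ 2|) with ht
  have ht0 : ∀ j k, 0 ≤ t j k := fun j k => by simp only [ht]; positivity
  have hb1 : ∀ j, 1 ≤ j → ∀ k, t j k ≤ 4 * (1 / 2) ^ k := by
    intro j hj k
    refine (gap_est hj k).2.trans ?_
    rw [one_div, inv_pow, ← div_eq_mul_inv]
    gcongr
    · norm_num
    · exact le_max_right _ _
  have hb2 : ∀ j, 1 ≤ j → ∀ k, t j k ≤ 4 * (1 / 2) ^ j := by
    intro j hj k
    refine (gap_est hj k).2.trans ?_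
    rw [one_div, inv_pow, ← div_eq_mul_inv]
    gcongr
    · norm_num
    · exact le_max_left _ _
  have hlim : Tendsto (fun j => ∑' k, t j k) atTop (𝓝 (∑' _ : ℕ, (0 : ℝ))) := by
    refine tendsto_tsum_of_dominated_convergence (bound := fun k => 4 * (1 / 2) ^ k)
      (summable_geometric_two.mul_left _) (fun k => ?_) ?_
    · have h0 : Tendsto (fun j : ℕ => 4 * (1 / 2 : ℝ) ^ j) atTop (𝓝 (4 * 0)) :=
        (tendsto_pow_atTop_nhds_zero_of_lt_one (by norm_num) (by norm_num)).const_mul _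
      rw [mul_zero] at h0
      refine squeeze_zero' (Eventually.of_forall fun j => ht0 j k) ?_ h0
      filter_upwards [eventually_ge_atTop 1] with j hj using hb2 j hj k
    · filter_upwards [eventually_ge_atTop 1] with j hj k
      rw [Real.norm_of_nonneg (ht0 j k)]
      exact hb1 j hj k
  rw [tsum_zero] at hlim
  obtain ⟨j, hj1, hj2, hj3⟩ := ((hlim.eventually (ge_mem_nhds hη)).and
    ((eventually_ge_atTop 1).and (eventually_ge_atTop M))).exists
  refine ⟨MM j, hj3.trans (le_MM j), fun i => (gap_est hj2 i.1).1, fun s => ?_⟩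
  refine le_trans (sum_idx_le (g := fun k => (2 * MM j + 1) / |(RR k : ℝ) ^ 2 - (MM j : ℝ) ^ 2|)
    (fun k => by positivity) ?_ s) hj1
  exact Summable.of_nonneg_of_le (ht0 j) (hb1 j hj2) (summable_geometric_two.mul_left _)

lemma exists_cluster (C R : ℝ) : ∃ r : ℝ, R ≤ r ∧ 0 < r ∧ ∃ s : Finset Idx,
    (∀ i ∈ s, aa i ≤ r) ∧ C * r ≤ s.card := by
  obtain ⟨k, hk1, hk2⟩ := ((tendsto_natCast_atTop_atTop.eventually_ge_atTop R).and
    (tendsto_natCast_atTop_atTop.eventually_ge_atTop C)).exists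
  have h1 : (k : ℝ) ≤ RR k := by exact_mod_cast le_RR k
  refine ⟨RR k, hk1.trans h1, RR_pos k, Finset.univ.map (Function.Embedding.sigmaMk k), ?_, ?_⟩
  · intro i hi
    obtain ⟨x, -, rfl⟩ := Finset.mem_map.mp hi
    exact le_rfl
  · rw [Finset.card_map, Finset.card_univ, Fintype.card_fin]
    have h2 : k * RR k ≤ NN k := by
      unfold RR NN
      rw [pow_add, mul_comm]
      exact Nat.mul_le_mul_left _ Nat.lt_two_pow_self.le
    have h3 : (k : ℝ) * RR k ≤ NN k := by exact_mod_cast h2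
    have := RR_pos k
    nlinarith

end Pool.Agent.P.MP_2e654e_an
end

-- part Pool.Agent.P.MP_2e654e_an.Main
section

set_option autoImplicit false

open Complex Metric Filter Topology

namespace Pool.Agent.P.MP_2e654e_an

/-- the constant added to the cosine -/
noncomputable def cc : ℝ := Real.exp (1 / 12) * Real.cosh 1

/-- the lacunary canonical product, rescaled -/
noncomputable def pp (z : ℂ) : ℂ := cprod aa (z / (2 * Real.pi))

/-- the counterexample -/
noncomputable def ff (z : ℂ) : ℂ := (cc + cos z) * pp z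

lemma cc_pos : 0 < cc := by
  unfold cc
  have := Real.cosh_pos 1
  positivity

lemma norm_cos_le (w : ℂ) : ‖cos w‖ ≤ Real.exp ‖w‖ := by
  have h1 : ‖exp (w * I)‖ ≤ Real.exp ‖w‖ := by
    simpa using Complex.norm_exp_le_exp_norm (w * I)
  have h2 : ‖exp (-w * I)‖ ≤ Real.exp ‖w‖ := by
    simpa using Complex.norm_exp_le_exp_norm (-w * I)
  unfold Complex.cos
  rw [norm_div, Complex.norm_ofNat]
  have := norm_add_le (exp (w * I)) (exp (-w * I))
  linarith

lemma norm_cc_cos_le (w : ℂ) : ‖cc + cos w‖ ≤ (1 + cc) * Real.exp ‖w‖ := by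
  refine (norm_add_le _ _).trans ?_
  rw [Complex.norm_real, Real.norm_of_nonneg cc_pos.le]
  have h1 := norm_cos_le w
  have h2 : 1 ≤ Real.exp ‖w‖ := Real.one_le_exp (norm_nonneg _)
  nlinarith [cc_pos]

lemma norm_div_two_pi (z : ℂ) : ‖z / (2 * Real.pi)‖ = ‖z‖ / (2 * Real.pi) := by
  rw [norm_div, norm_mul, Complex.norm_real, Real.norm_of_nonneg Real.pi_pos.le,
    Complex.norm_ofNat]

lemma norm_div_two_pi_le (z : ℂ) : ‖z / (2 * Real.pi)‖ ≤ ‖z‖ := by
  rw [norm_div_two_pi]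
  refine div_le_self (norm_nonneg _) ?_
  linarith [Real.pi_gt_three]

lemma pp_differentiable : Differentiable ℂ pp :=
  (cprod_differentiable aa_pos summable_aa_two).comp (differentiable_id.div_const _)

lemma ff_differentiable : Differentiable ℂ ff :=
  (differentiable_cos.const_add _).mul pp_differentiable

lemma ff_real (x : ℝ) : (ff (x : ℂ)).im = 0 := by
  have h1 : (pp x).im = 0 := by
    unfold pp
    have := cprod_real aa_pos summable_aa_two (x / (2 * Real.pi))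
    push_cast at this
    exact this
  unfold ff
  rw [mul_im, h1, add_im, ofReal_im, ← Complex.ofReal_cos, ofReal_im]
  simp

lemma ff_even (z : ℂ) : ff (-z) = ff z := by
  unfold ff pp
  rw [Complex.cos_neg, neg_div, cprod_even]

lemma ff_order (ε : ℝ) (hε : 0 < ε) :
    ∃ R : ℝ, ∀ z : ℂ, R ≤ ‖z‖ → ‖ff z‖ ≤ Real.exp (‖z‖ ^ (1 + ε)) := by
  set e : ℝ := min (ε / 2) 1 with he
  have he0 : 0 < e := lt_min (by linarith) one_pos
  have he1 : e ≤ 1 := min_le_right _ _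
  have he2 : e ≤ ε / 2 := min_le_left _ _
  set S : ℝ := ∑' i, 1 / aa i ^ (1 + e) with hS
  have hS0 : 0 ≤ S := tsum_nonneg fun i => by have := aa_pos i; positivity
  have hlim : Tendsto (fun r : ℝ => r ^ (ε - e)) atTop atTop :=
    tendsto_rpow_atTop (by linarith)
  obtain ⟨R, hR⟩ := eventually_atTop.mp
    ((hlim.eventually_ge_atTop (S + 1 + cc)).and (eventually_ge_atTop 1))
  refine ⟨R, fun z hz => ?_⟩
  obtain ⟨h1, h2⟩ := hR _ hz
  have h3 : ‖pp z‖ ≤ Real.exp (S * ‖z‖ ^ (1 + e)) := by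
    refine (cprod_norm_le aa_pos summable_aa_two he0.le he1 (summable_aa he0) _).trans ?_
    have := norm_div_two_pi_le z
    gcongr
  have h4 : ‖cc + cos z‖ ≤ Real.exp (cc + ‖z‖) := by
    refine (norm_cc_cos_le z).trans ?_
    rw [Real.exp_add]
    gcongr
    linarith [Real.add_one_le_exp cc]
  have h5 : ‖z‖ ≤ ‖z‖ ^ (1 + e) := by
    conv_lhs => rw [← Real.rpow_one ‖z‖]
    exact Real.rpow_le_rpow_of_exponent_le h2 (by linarith)
  have h6 : ‖z‖ ^ (1 + ε) = ‖z‖ ^ (ε - e) * ‖z‖ ^ (1 + e) := by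
    rw [← Real.rpow_add (by linarith)]
    congr 1
    ring
  unfold ff
  rw [norm_mul]
  calc ‖cc + cos z‖ * ‖pp z‖ ≤ Real.exp (cc + ‖z‖) * Real.exp (S * ‖z‖ ^ (1 + e)) := by gcongr
    _ = Real.exp (cc + ‖z‖ + S * ‖z‖ ^ (1 + e)) := by rw [← Real.exp_add]
    _ ≤ Real.exp (‖z‖ ^ (1 + ε)) := by
        rw [h6]
        gcongr
        have h7 : (S + 1 + cc) * ‖z‖ ^ (1 + e) ≤ ‖z‖ ^ (ε - e) * ‖z‖ ^ (1 + e) := by gcongr
        have := cc_pos
        nlinarith

lemma ff_maxtype (C R : ℝ) : ∃ z : ℂ, R ≤ ‖z‖ ∧ Real.exp (C * ‖z‖) < ‖ff z‖ := by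
  obtain ⟨r, hr1, hr0, s, hs1, hs2⟩ := exists_cluster (2 * (|C| + 1) * (2 * Real.pi)) R
  have hpi := Real.pi_gt_three
  have hn : ‖(2 * Real.pi * r : ℝ) * I‖ = 2 * Real.pi * r := by
    rw [norm_mul, norm_I, mul_one, Complex.norm_real, Real.norm_of_nonneg (by positivity)]
  refine ⟨(2 * Real.pi * r : ℝ) * I, ?_, ?_⟩
  · rw [hn]
    nlinarith
  · rw [hn]
    have h1 : (2 : ℝ) ^ s.card ≤ ‖pp ((2 * Real.pi * r : ℝ) * I)‖ := by
      have := cprod_lower aa_pos summable_aa_two s hs1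
      unfold pp
      convert this using 3
      have : (Real.pi : ℂ) ≠ 0 := by exact_mod_cast Real.pi_ne_zero
      push_cast
      field_simp
    have h2 : 1 ≤ ‖cc + cos ((2 * Real.pi * r : ℝ) * I)‖ := by
      rw [Complex.cos_mul_I, ← Complex.ofReal_cosh, ← Complex.ofReal_add, Complex.norm_real]
      have := Real.one_le_cosh (2 * Real.pi * r)
      have := cc_pos
      rw [Real.norm_of_nonneg (by linarith)]
      linarith
    have h3 : Real.exp (1 / 2) ≤ 2 := by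
      have h4 : Real.exp (1 / 2) ^ 2 = Real.exp 1 := by
        rw [← Real.exp_nat_mul]
        norm_num
      have := Real.exp_one_lt_d9
      nlinarith [Real.exp_pos (1 / 2)]
    have h5 : Real.exp (s.card * (1 / 2)) ≤ 2 ^ s.card := by
      rw [Real.exp_nat_mul]
      gcongr
    have h6 : C * (2 * Real.pi * r) < s.card * (1 / 2) := by
      have h7 : C * (2 * Real.pi * r) ≤ |C| * (2 * Real.pi * r) := by
        gcongr
        exact le_abs_self C
      have h8 : 0 < 2 * Real.pi * r := by positivity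
      nlinarith
    unfold ff
    rw [norm_mul]
    calc Real.exp (C * (2 * Real.pi * r)) < Real.exp (s.card * (1 / 2)) := Real.exp_lt_exp.mpr h6
      _ ≤ 1 * 2 ^ s.card := by linarith
      _ ≤ _ := by gcongr

lemma ff_strip (z : ℂ) (hz : ff z = 0) : |z.im| < 2 * cc + 1 := by
  have hc := cc_pos
  rcases mul_eq_zero.mp hz with h | h
  · have h1 : exp (z * I) + exp (-z * I) = -(2 * cc) := by
      rw [← Complex.two_cos]
      linear_combination 2 * h
    have h2 : ‖exp (z * I)‖ = Real.exp (-z.im) := by simp [Complex.norm_exp]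
    have h3 : ‖exp (-z * I)‖ = Real.exp z.im := by simp [Complex.norm_exp]
    have h4 : ‖-(2 * (cc : ℂ))‖ = 2 * cc := by
      rw [norm_neg, norm_mul, Complex.norm_real, Real.norm_of_nonneg hc.le, Complex.norm_ofNat]
    have h5 : Real.exp z.im ≤ 2 * cc + Real.exp (-z.im) := by
      rw [← h2, ← h3, ← h4, ← h1]
      have := norm_sub_le (exp (z * I) + exp (-z * I)) (exp (z * I))
      simpa using this
    have h6 : Real.exp (-z.im) ≤ 2 * cc + Real.exp z.im := by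
      rw [← h2, ← h3, ← h4, ← h1]
      have := norm_sub_le (exp (z * I) + exp (-z * I)) (exp (-z * I))
      simpa using this
    rcases le_total 0 z.im with h7 | h7
    · rw [abs_of_nonneg h7]
      have : Real.exp (-z.im) ≤ 1 := Real.exp_le_one_iff.mpr (by linarith)
      linarith [Real.add_one_le_exp z.im]
    · rw [abs_of_nonpos h7]
      have : Real.exp z.im ≤ 1 := Real.exp_le_one_iff.mpr h7
      linarith [Real.add_one_le_exp (-z.im)]
  · have h1 := cprod_zero_im aa_pos summable_aa_two h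
    have h2 : z = (2 * Real.pi : ℝ) * (z / (2 * Real.pi)) := by
      have : (Real.pi : ℂ) ≠ 0 := by exact_mod_cast Real.pi_ne_zero
      push_cast
      field_simp
    rw [h2, Complex.im_ofReal_mul, h1]
    simp
    linarith

/-- the centre of the test disc -/
noncomputable def w0 : ℂ := Real.pi + I

lemma phi_eq (w : ℂ) : (cc : ℂ) + exp ((1 / 12 : ℝ) : ℂ) * cos w =
    exp ((1 / 12 : ℝ) : ℂ) * (cos w - cos w0) := by
  have : cos w0 = -cosh 1 := by
    unfold w0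
    rw [add_comm, Complex.cos_add_pi, ← one_mul I, Complex.cos_mul_I]
  rw [this]
  unfold cc
  push_cast
  ring

lemma im_ge_of_mem {w : ℂ} (hw : w ∈ closedBall w0 (1 / 2)) : 1 / 2 ≤ w.im := by
  rw [mem_closedBall_iff_norm] at hw
  have h1 := (Complex.abs_im_le_norm (w - w0)).trans hw
  have h2 : (w - w0).im = w.im - 1 := by simp [w0]
  rw [h2, abs_le] at h1
  linarith [h1.1]

lemma re_ge_of_mem {w : ℂ} (hw : w ∈ closedBall w0 (1 / 2)) : 0 ≤ w.re := by
  rw [mem_closedBall_iff_norm] at hw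
  have h1 := (Complex.abs_re_le_norm (w - w0)).trans hw
  have h2 : (w - w0).re = w.re - Real.pi := by simp [w0]
  rw [h2, abs_le] at h1
  linarith [h1.1, Real.pi_gt_three]

lemma norm_le_of_mem {w : ℂ} (hw : w ∈ closedBall w0 (1 / 2)) : ‖w‖ ≤ 6 := by
  rw [mem_closedBall_iff_norm] at hw
  have h1 : ‖w0‖ ≤ 5 := by
    unfold w0
    refine (norm_add_le _ _).trans ?_
    rw [Complex.norm_real, Real.norm_of_nonneg Real.pi_pos.le, norm_I]
    linarith [Real.pi_lt_four]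
  have h2 := norm_add_le (w - w0) w0
  rw [sub_add_cancel] at h2
  linarith

lemma exists_delta : ∃ δ : ℝ, 0 < δ ∧ ∀ w ∈ sphere w0 (1 / 2),
    δ ≤ ‖(cc : ℂ) + exp ((1 / 12 : ℝ) : ℂ) * cos w‖ := by
  have hcont : ContinuousOn (fun w : ℂ => ‖(cc : ℂ) + exp ((1 / 12 : ℝ) : ℂ) * cos w‖)
      (sphere w0 (1 / 2)) := by fun_prop
  obtain ⟨u, hu, hmin⟩ := (isCompact_sphere w0 (1 / 2)).exists_isMinOn
    (NormedSpace.sphere_nonempty.mpr (by norm_num)) hcont
  refine ⟨_, norm_pos_iff.mpr ?_, fun w hw => hmin hw⟩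
  rw [phi_eq]
  refine mul_ne_zero (Complex.exp_ne_zero _) (sub_ne_zero.mpr fun h => ?_)
  obtain ⟨k, hk | hk⟩ := Complex.cos_eq_cos_iff.mp h.symm
  · rw [mem_sphere_iff_norm, hk, add_sub_cancel_right, norm_mul, norm_mul, Complex.norm_ofNat,
      Complex.norm_real, Real.norm_of_nonneg Real.pi_pos.le, Complex.norm_intCast] at hu
    rcases eq_or_ne k 0 with rfl | hk0
    · norm_num at hu
    · have : (1 : ℝ) ≤ |(k : ℝ)| := by exact_mod_cast Int.one_le_abs hk0
      nlinarith [Real.pi_gt_three]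
  · have h1 := im_ge_of_mem (sphere_subset_closedBall hu)
    rw [hk] at h1
    simp [w0] at h1
    linarith

lemma err_bound {θ s : ℝ} (h0 : 0 ≤ θ) (h1 : θ ≤ 1) (hs : 0 ≤ s) :
    Real.exp s * (Real.exp (θ / 8 * (s + s ^ 2)) - 1) ≤ θ * 3 * Real.exp (s ^ 2 / 2) := by
  have hc := convexOn_exp.2 (Set.mem_univ 0) (Set.mem_univ ((s + s ^ 2) / 8))
    (show 0 ≤ 1 - θ by linarith) h0 (by ring)
  simp only [smul_eq_mul, mul_zero, zero_add, Real.exp_zero, mul_one] at hc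
  rw [show θ * ((s + s ^ 2) / 8) = θ / 8 * (s + s ^ 2) by ring] at hc
  have h2 : Real.exp (θ / 8 * (s + s ^ 2)) - 1 ≤ θ * Real.exp ((s + s ^ 2) / 8) := by linarith
  have h3 : Real.exp s * Real.exp ((s + s ^ 2) / 8) ≤ 3 * Real.exp (s ^ 2 / 2) := by
    have he : Real.exp 1 ≤ 3 := by linarith [Real.exp_one_lt_d9]
    calc Real.exp s * Real.exp ((s + s ^ 2) / 8) = Real.exp (s + (s + s ^ 2) / 8) := by
          rw [Real.exp_add]
      _ ≤ Real.exp (1 + s ^ 2 / 2) := by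
          apply Real.exp_le_exp.mpr
          nlinarith [sq_nonneg (s - 3 / 2)]
      _ = Real.exp 1 * Real.exp (s ^ 2 / 2) := by rw [Real.exp_add]
      _ ≤ _ := by gcongr
  calc Real.exp s * (Real.exp (θ / 8 * (s + s ^ 2)) - 1)
      ≤ Real.exp s * (θ * Real.exp ((s + s ^ 2) / 8)) := by gcongr
    _ = θ * (Real.exp s * Real.exp ((s + s ^ 2) / 8)) := by ring
    _ ≤ θ * (3 * Real.exp (s ^ 2 / 2)) := by gcongr
    _ = _ := by ring

lemma exists_far_zero (M : ℕ) :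
    ∃ z : ℂ, (M : ℝ) ≤ ‖z‖ ∧ heat (1 / 12) ff z = 0 ∧ z.im ≠ 0 := by
  obtain ⟨δ, hδ, hδ2⟩ := exists_delta
  have hc := cc_pos
  set A : ℝ := 6 * ((1 + cc) * 3 * Real.exp (6 ^ 2)) with hA
  have hA0 : 0 < A := by positivity
  set θ : ℝ := min 1 (δ / 3 / A) with hθ
  have hθ0 : 0 < θ := lt_min one_pos (by positivity)
  have hθ1 : θ ≤ 1 := min_le_left _ _
  have hθ2 : θ * A ≤ δ / 3 := by
    rw [← le_div_iff₀ hA0]
    exact min_le_right _ _
  obtain ⟨m, hm1, hm2, hm3⟩ := exists_gap (η := θ / 8) (by positivity) M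
  have hpi : (Real.pi : ℂ) ≠ 0 := by exact_mod_cast Real.pi_ne_zero
  set P : ℂ := cprod aa ((m : ℝ) : ℂ) with hP
  have hP0 : P ≠ 0 := cprod_ne_zero aa_pos summable_aa_two (fun i h => hm2 i (by
    exact_mod_cast h.symm))
  set x : ℂ := m * (2 * Real.pi) with hx
  have hpp : ∀ u : ℂ, pp (x + u) = cprod aa (((m : ℝ) : ℂ) + u / (2 * Real.pi)) := by
    intro u
    unfold pp
    congr 1
    simp only [hx]
    push_cast
    field_simp
  set E : ℂ → ℂ := fun u => (cc + cos u) * ((pp (x + u) - P) / P) with hE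
  have hEd : Differentiable ℂ E :=
    (differentiable_cos.const_add _).mul
      (((pp_differentiable.comp (differentiable_id.const_add x)).sub_const P).div_const P)
  have hEb : ∀ u : ℂ, ‖E u‖ ≤ (θ * ((1 + cc) * 3)) * Real.exp (‖u‖ ^ 2 / 2) := by
    intro u
    have h1 := cprod_ratio aa_pos summable_aa_two (Nat.cast_nonneg m) hm2 hm3 (u / (2 * Real.pi))
    rw [← hpp, ← hP] at h1
    have h2 : ‖(pp (x + u) - P) / P‖ ≤ Real.exp (θ / 8 * (‖u‖ + ‖u‖ ^ 2)) - 1 := by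
      rw [norm_div, div_le_iff₀ (norm_pos_iff.mpr hP0), mul_comm]
      refine h1.trans ?_
      have := norm_div_two_pi_le u
      gcongr
    simp only [hE]
    rw [norm_mul]
    calc ‖cc + cos u‖ * ‖(pp (x + u) - P) / P‖
        ≤ ((1 + cc) * Real.exp ‖u‖) * (Real.exp (θ / 8 * (‖u‖ + ‖u‖ ^ 2)) - 1) :=
          mul_le_mul (norm_cc_cos_le u) h2 (norm_nonneg _) (by positivity)
      _ = (1 + cc) * (Real.exp ‖u‖ * (Real.exp (θ / 8 * (‖u‖ + ‖u‖ ^ 2)) - 1)) := by ring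
      _ ≤ (1 + cc) * (θ * 3 * Real.exp (‖u‖ ^ 2 / 2)) :=
          mul_le_mul_of_nonneg_left (err_bound hθ0.le hθ1 (norm_nonneg u)) (by positivity)
      _ = _ := by ring
  have hsplit : (fun u => ff (x + u)) = fun u => P * ((cc + cos u) + E u) := by
    ext u
    simp only [hE, ff]
    rw [add_comm x u, hx, Complex.cos_add_nat_mul_two_pi]
    field_simp
    ring
  have hheat : ∀ w : ℂ, heat (1 / 12) ff (x + w) =
      P * ((cc + exp ((1 / 12 : ℝ) : ℂ) * cos w) + heat (1 / 12) E w) := by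
    intro w
    rw [heat_shift, hsplit, heat_const_mul, heat_add _ (differentiable_cos.const_add _) hEd
      (hasSum_cos_add _ _ _).summable (hterm_summable hEd (shift_bound hEb le_rfl))]
    congr 2
    exact (hasSum_cos_add _ _ _).tsum_eq
  have hsmall : ∀ w ∈ closedBall w0 (1 / 2), ‖heat (1 / 12) E w‖ ≤ δ / 3 := by
    intro w hw
    refine (heat_bound hEd (shift_bound hEb (norm_le_of_mem hw))).trans ?_
    refine le_trans (le_of_eq ?_) hθ2
    simp only [hA]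
    ring
  obtain ⟨w, hw1, hw2⟩ := exists_zero
    (ψ := fun w => (cc + exp ((1 / 12 : ℝ) : ℂ) * cos w) + heat (1 / 12) E w)
    (((differentiable_cos.const_mul _).const_add _).add (heat_differentiable hEd hEb))
    (c := w0) (r := 1 / 2) (δ := 2 * δ / 3) (by norm_num)
    (by
      simp only [phi_eq, sub_self, mul_zero, zero_add]
      have := hsmall w0 (mem_closedBall_self (by norm_num))
      linarith)
    (fun w hw => by
      have h1 := hδ2 w hw
      have h2 := hsmall w (sphere_subset_closedBall hw)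
      have h3 := norm_sub_le ((cc + exp ((1 / 12 : ℝ) : ℂ) * cos w) + heat (1 / 12) E w)
        (heat (1 / 12) E w)
      rw [add_sub_cancel_right] at h3
      linarith)
  refine ⟨x + w, ?_, ?_, ?_⟩
  · refine le_trans ?_ (Complex.re_le_norm _)
    have h1 := re_ge_of_mem hw1
    have h2 : x.re = m * (2 * Real.pi) := by simp [hx]
    have h3 : (M : ℝ) ≤ m := by exact_mod_cast hm1
    rw [add_re, h2]
    have h4 : (0 : ℝ) ≤ m := Nat.cast_nonneg m
    nlinarith [Real.pi_gt_three]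
  · rw [hheat, hw2, mul_zero]
  · have h1 := im_ge_of_mem hw1
    have h2 : x.im = 0 := by simp [hx]
    rw [add_im, h2]
    linarith

theorem main :
    ¬ (∀ f : ℂ → ℂ, Differentiable ℂ f →
      (∀ x : ℝ, (f (x : ℂ)).im = 0) →
      (∀ z : ℂ, f (-z) = f z) →
      (∀ ε : ℝ, 0 < ε → ∃ R : ℝ, ∀ z : ℂ, R ≤ ‖z‖ → ‖f z‖ ≤ Real.exp (‖z‖ ^ (1 + ε))) →
      (∀ C R : ℝ, ∃ z : ℂ, R ≤ ‖z‖ ∧ Real.exp (C * ‖z‖) < ‖f z‖) →
      ∀ Δ : ℝ, 0 < Δ → (∀ z : ℂ, f z = 0 → |z.im| < Δ) →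
      ∀ lam : ℝ, 0 < lam →
      ∀ g : ℂ → ℂ,
        (∀ z : ℂ, g z = ∑' k : ℕ,
          (-(lam : ℂ)) ^ k / ((Nat.factorial k : ℕ) : ℂ) * iteratedDeriv (2 * k) f z) →
        {z : ℂ | g z = 0 ∧ (z.im ≠ 0 ∨ deriv g z = 0)}.Finite) := by
  intro h
  have hfin := h ff ff_differentiable ff_real ff_even ff_order ff_maxtype (2 * cc + 1)
    (by linarith [cc_pos]) ff_strip (1 / 12) (by norm_num) (heat (1 / 12) ff) (fun z => rfl)
  obtain ⟨C, hC⟩ := hfin.isBounded.exists_norm_le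
  obtain ⟨M, hM⟩ := exists_nat_gt C
  obtain ⟨z, hz1, hz2, hz3⟩ := exists_far_zero M
  have := hC z ⟨hz2, Or.inl hz3⟩
  linarith

end Pool.Agent.P.MP_2e654e_an
end
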